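import Pool.Agent.Q187.PS.Stm
import Mathlib.Geometry.Manifold.PartitionOfUnity

set_option autoImplicit false

/-! Job APPR of project PS (helper187). -/

namespace Pool.Agent.Q195.PS

open MeasureTheory Set Filter Topology Metric
open scoped RealInnerProductSpace ENNReal NNReal Manifold
open Q187.PS

theorem appr : S_Appr := by
  intro h C hm hC F hF hFb ε hε
  have hC0 : 0 ≤ C := (abs_nonneg _).trans (hC 0)
  obtain ⟨R, hR0, hR⟩ : ∃ R : ℝ, 0 < R ∧ F ⊆ ball 0 R := by
    obtain ⟨R, hR⟩ := hFb.subset_ball_lt 0 0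
    exact ⟨R, hR.1, hR.2⟩
  have hFfin : volume F ≠ ∞ :=
    ((measure_mono hR).trans_lt measure_ball_lt_top).ne
  set δ : ℝ := ε / (2 * (C + 1)) with hδ
  have hδ0 : 0 < δ := by positivity
  have hδ' : ENNReal.ofReal δ ≠ 0 := by
    rw [Ne, ENNReal.ofReal_eq_zero]
    linarith
  obtain ⟨K, hKF, hK, hKd⟩ := hF.exists_isCompact_sdiff_lt hFfin hδ'
  obtain ⟨O, hFO, hO, _, hOd⟩ := hF.exists_isOpen_sdiff_lt hFfin hδ'
  set O' := O ∩ ball (0 : V2) R with hO'
  have hO'o : IsOpen O' := hO.inter isOpen_ball
  have hFO' : F ⊆ O' := subset_inter hFO hR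
  have hdis : Disjoint O'ᶜ K := by
    rw [Set.disjoint_left]
    intro x hx hx'
    exact hx (hFO' (hKF hx'))
  obtain ⟨f, hf0, hf1, hf2⟩ := exists_contMDiffMap_zero_one_of_isClosed (n := 1) 𝓘(ℝ, V2)
    hO'o.isClosed_compl hK.isClosed hdis
  have hfc : ContDiff ℝ 1 (f : V2 → ℝ) := f.contMDiff.contDiff
  have hsupp : HasCompactSupport (f : V2 → ℝ) := by
    apply HasCompactSupport.of_support_subset_isCompact (isCompact_closedBall (0 : V2) R)
    intro x hx
    by_contra hcon
    apply hx
    apply hf0
    intro hx'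
    exact hcon (ball_subset_closedBall hx'.2)
  have hfz : ∀ x, x ∉ closedBall (0 : V2) R → f x = 0 := by
    intro x hx
    apply hf0
    intro hx'
    exact hx (ball_subset_closedBall hx'.2)
  refine ⟨f, hfc, hsupp, fun v => (hf2 v).1, fun v => (hf2 v).2, ?_⟩
  have hball : volume (closedBall (0 : V2) R) < ∞ := measure_closedBall_lt_top
  have hcI : Integrable ((closedBall (0 : V2) R).indicator (fun _ => C)) :=
    (integrable_indicator_iff measurableSet_closedBall).2 (integrableOn_const hball.ne)
  have hI1 : Integrable (F.indicator h) := by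
    refine hcI.mono' (hm.indicator hF).aestronglyMeasurable (Eventually.of_forall fun x => ?_)
    by_cases hx : x ∈ F
    · rw [indicator_of_mem hx, indicator_of_mem (ball_subset_closedBall (hR hx))]
      exact hC x
    · rw [indicator_of_notMem hx, norm_zero]
      exact indicator_nonneg (fun _ _ => hC0) x
  have hI2 : Integrable (fun v => f v * h v) := by
    refine hcI.mono' (hfc.continuous.measurable.mul hm).aestronglyMeasurable
      (Eventually.of_forall fun x => ?_)
    by_cases hx : x ∈ closedBall (0 : V2) R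
    · rw [indicator_of_mem hx, Real.norm_eq_abs, abs_mul, abs_of_nonneg (hf2 x).1]
      calc f x * |h x| ≤ 1 * |h x| := mul_le_mul_of_nonneg_right (hf2 x).2 (abs_nonneg _)
        _ ≤ C := by rw [one_mul]; exact hC x
    · rw [hfz x hx, zero_mul, norm_zero]
      exact indicator_nonneg (fun _ _ => hC0) x
  have hD : volume (O' \ K) ≤ ENNReal.ofReal δ + ENNReal.ofReal δ := by
    have hsub : O' \ K ⊆ (O \ F) ∪ (F \ K) := by
      intro x hx
      by_cases hxF : x ∈ F
      · exact Or.inr ⟨hxF, hx.2⟩
      · exact Or.inl ⟨hx.1.1, hxF⟩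
    exact (measure_mono hsub).trans ((measure_union_le _ _).trans (add_le_add hOd.le hKd.le))
  have hD' : volume (O' \ K) ≠ ∞ :=
    (hD.trans_lt (by simp)).ne
  have hDm : MeasurableSet (O' \ K) := hO'o.measurableSet.diff hK.measurableSet
  have hI3 : Integrable ((O' \ K).indicator (fun _ => C)) :=
    (integrable_indicator_iff hDm).2 (integrableOn_const hD')
  have h1 : ∫ v, (F.indicator h v - f v * h v) ≤ ∫ v, (O' \ K).indicator (fun _ => C) v := by
    apply integral_mono (hI1.sub hI2) hI3
    intro x
    show F.indicator h x - f x * h x ≤ (O' \ K).indicator (fun _ => C) x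
    have hh := abs_le.1 (hC x)
    have hf := hf2 x
    by_cases hxK : x ∈ K
    · rw [indicator_of_mem (hKF hxK), hf1 hxK]
      rw [Pi.one_apply, one_mul, sub_self]
      exact indicator_nonneg (fun _ _ => hC0) x
    · by_cases hxO : x ∈ O'
      · rw [indicator_of_mem (show x ∈ O' \ K from ⟨hxO, hxK⟩)]
        by_cases hxF : x ∈ F
        · rw [indicator_of_mem hxF]
          have e1 : h x - f x * h x = (1 - f x) * h x := by ring
          rw [e1]
          calc (1 - f x) * h x ≤ (1 - f x) * C := mul_le_mul_of_nonneg_left hh.2 (by linarith [hf.2])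
            _ ≤ 1 * C := mul_le_mul_of_nonneg_right (by linarith [hf.1]) hC0
            _ = C := one_mul _
        · rw [indicator_of_notMem hxF, zero_sub]
          have e1 : -(f x * h x) = f x * (-h x) := by ring
          rw [e1]
          calc f x * (-h x) ≤ f x * C := mul_le_mul_of_nonneg_left (by linarith [hh.1]) hf.1
            _ ≤ 1 * C := mul_le_mul_of_nonneg_right hf.2 hC0
            _ = C := one_mul _
      · rw [indicator_of_notMem (fun h => hxO (hFO' h)), indicator_of_notMem (fun h => hxO h.1),
          hf0 hxO]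
        simp
  have h2 : ∫ v, (O' \ K).indicator (fun _ => C) v ≤ C * (2 * δ) := by
    rw [integral_indicator hDm, setIntegral_const, smul_eq_mul, mul_comm]
    apply mul_le_mul_of_nonneg_left _ hC0
    rw [measureReal_def]
    have h3 := ENNReal.toReal_mono (by simp) hD
    rw [← ENNReal.ofReal_add hδ0.le hδ0.le, ENNReal.toReal_ofReal (by linarith)] at h3
    linarith
  rw [integral_sub hI1 hI2, integral_indicator hF] at h1
  have h3 : C * (2 * δ) ≤ ε := by
    rw [hδ]
    have : C * (2 * (ε / (2 * (C + 1)))) = ε * (C / (C + 1)) := by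
      field_simp
    rw [this]
    have h4 : C / (C + 1) ≤ 1 := by
      rw [div_le_one (by linarith)]
      linarith
    calc ε * (C / (C + 1)) ≤ ε * 1 := mul_le_mul_of_nonneg_left h4 hε.le
      _ = ε := mul_one _
  linarith

end Pool.Agent.Q195.PS
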