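import Pool.Agent.Q187.PS.Stm

set_option autoImplicit false

/-! Job EFIN of project PS (helper187). -/

namespace Pool.Agent.Q195.PS

open MeasureTheory Set Filter Topology Metric
open scoped RealInnerProductSpace ENNReal NNReal
open Q187.PS

lemma pow_lin (n : ℕ) {u : ℝ} (h0 : 0 ≤ u) (h1 : u ≤ 1) : (1 + u) ^ n ≤ 1 + (2 ^ n - 1) * u := by
  induction n with
  | zero => simp
  | succ n ih =>
    have h2 : (1 : ℝ) ≤ 2 ^ n := one_le_pow₀ (by norm_num)
    calc (1 + u) ^ (n + 1) = (1 + u) ^ n * (1 + u) := pow_succ _ _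
      _ ≤ (1 + (2 ^ n - 1) * u) * (1 + u) := mul_le_mul_of_nonneg_right ih (by linarith)
      _ = 1 + 2 ^ n * u + (2 ^ n - 1) * u * u := by ring
      _ ≤ 1 + 2 ^ n * u + (2 ^ n - 1) * u * 1 := by
          have h3 : 0 ≤ (2 ^ n - 1) * u := mul_nonneg (by linarith) h0
          have := mul_le_mul_of_nonneg_left h1 h3
          linarith
      _ = 1 + (2 ^ (n + 1) - 1) * u := by ring

theorem efin (hMink : S_Mink) (hEvol : S_Evol) : S_Efin := by
  intro m L ρ g hL hρ hg hlev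
  set E : Set (XX m) := Eg m g 9 with hE
  have hgc : Continuous g := hg.continuous
  have hmem : ∀ c (x : XX m), x ∈ Eg m g c ↔ ‖x.snd‖ ^ 2 + c ≤ g x.fst := fun c x => Iff.rfl
  have hsnd : ∀ x ∈ E, ‖x.snd‖ ≤ 3 := by
    intro x hx
    have h1 := (hmem 9 x).1 hx
    have h2 := hg.le x.fst
    have h3 : ‖x.snd‖ ^ 2 ≤ 3 ^ 2 := by linarith
    exact le_of_sq_le_sq h3 (by norm_num)
  have hfst : ∀ x ∈ E, ‖x.fst‖ ≤ ρ := by
    intro x hx
    have h1 := (hmem 9 x).1 hx
    by_contra hcon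
    push Not at hcon
    rw [hg.out _ hcon] at h1
    have : 0 ≤ ‖x.snd‖ ^ 2 := by positivity
    linarith
  have hclosed : IsClosed E := by
    have : E = {x : XX m | ‖x.snd‖ ^ 2 + 9 ≤ g x.fst} := rfl
    rw [this]
    apply isClosed_le
    · fun_prop
    · fun_prop
  have hcompact : IsCompact E := by
    apply Metric.isCompact_of_isClosed_isBounded hclosed
    apply (isBounded_closedBall (x := (0 : XX m)) (r := ρ + 3)).subset
    intro x hx
    rw [mem_closedBall_zero_iff]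
    refine le_of_sq_le_sq ?_ (by linarith)
    rw [WithLp.prod_norm_sq_eq_of_L2]
    have h1 := hsnd x hx
    have h2 := hfst x hx
    have h3 : ‖x.fst‖ ^ 2 ≤ ρ ^ 2 := pow_le_pow_left₀ (norm_nonneg _) h2 2
    have h4 : ‖x.snd‖ ^ 2 ≤ 3 ^ 2 := pow_le_pow_left₀ (norm_nonneg _) h1 2
    nlinarith
  set n := Module.finrank ℝ (XX m) with hn
  set β : ℝ := (volume (closedBall (0 : XX m) 1)).toReal with hβ
  have hβ0 : 0 ≤ β := ENNReal.toReal_nonneg
  have hvol : ∀ r : ℝ, 0 ≤ r → volume (closedBall (0 : XX m) r) = ENNReal.ofReal (r ^ n * β) := by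
    intro r hr
    rw [Measure.addHaar_closedBall' volume _ hr, ENNReal.ofReal_mul (by positivity), hβ,
      ENNReal.ofReal_toReal measure_closedBall_lt_top.ne]
  have h9 : volume E = ENNReal.ofReal (3 ^ n * β) := by
    rw [hE, hEvol m L ρ g hL hρ hg hlev 9 (by norm_num) (by norm_num)]
    have : √((18 : ℝ) - 9) = 3 := by
      rw [show (18 : ℝ) - 9 = 3 ^ 2 by norm_num]
      exact Real.sqrt_sq (by norm_num)
    rw [this]
    exact hvol 3 (by norm_num)
  set C : ℝ := L + 7 with hC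
  set C' : ℝ := 3 ^ n * β * (2 ^ n - 1) * (C / 18) with hC'
  have h2n : (1 : ℝ) ≤ 2 ^ n := one_le_pow₀ (by norm_num)
  have hC'0 : 0 ≤ C' := by
    have : (0 : ℝ) ≤ 2 ^ n - 1 := by linarith
    positivity
  refine (hMink (XX m) E C' hcompact hC'0 ?_).trans_lt ENNReal.ofReal_lt_top
  have hC0 : 0 < C := by positivity
  have hnhds : Ioo (0 : ℝ) (1 / C) ∈ 𝓝[>] (0 : ℝ) := Ioo_mem_nhdsGT (by positivity)
  filter_upwards [hnhds] with t ht
  have ht0 : 0 < t := ht.1
  have ht1 : C * t ≤ 1 := by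
    have := ht.2.le
    rw [le_div_iff₀ hC0] at this
    linarith
  have htl : t ≤ 1 := by nlinarith
  have hsub : cthickening t E ⊆ Eg m g (9 - C * t) := by
    intro y hy
    rw [hcompact.cthickening_eq_biUnion_closedBall ht0.le, mem_iUnion₂] at hy
    obtain ⟨x, hx, hxy⟩ := hy
    rw [mem_closedBall, dist_eq_norm] at hxy
    rw [hmem]
    have h1 : ‖y.fst - x.fst‖ ≤ t := by
      have : ‖(y - x).fst‖ ≤ ‖y - x‖ := WithLp.norm_fst_le _ _
      exact this.trans hxy
    have h2 : ‖y.snd - x.snd‖ ≤ t := by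
      have : ‖(y - x).snd‖ ≤ ‖y - x‖ := WithLp.norm_snd_le _ _
      exact this.trans hxy
    have h3 : ‖y.snd‖ ≤ ‖x.snd‖ + t := by
      have := norm_sub_norm_le y.snd x.snd
      linarith
    have h4 : ‖y.snd‖ ^ 2 ≤ (‖x.snd‖ + t) ^ 2 := pow_le_pow_left₀ (norm_nonneg _) h3 2
    have h5 := hsnd x hx
    have h6 := (hmem 9 x).1 hx
    have h7 := (abs_le.1 (hg.lip y.fst x.fst)).1
    have h8 : L * ‖y.fst - x.fst‖ ≤ L * t := mul_le_mul_of_nonneg_left h1 hL
    rw [hC]
    nlinarith [mul_nonneg ht0.le (sub_nonneg.2 h5), mul_nonneg ht0.le (sub_nonneg.2 htl)]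
  refine (measure_mono hsub).trans ?_
  rw [hEvol m L ρ g hL hρ hg hlev (9 - C * t) (by linarith) (by nlinarith [mul_pos hC0 ht0]), h9,
    hvol _ (Real.sqrt_nonneg _), ← ENNReal.ofReal_add (by positivity) (by positivity)]
  apply ENNReal.ofReal_le_ofReal
  have hs : √(18 - (9 - C * t)) ≤ 3 * (1 + C / 18 * t) := by
    rw [Real.sqrt_le_left (by positivity)]
    nlinarith [sq_nonneg (C * t), mul_pos hC0 ht0]
  have h1 : √(18 - (9 - C * t)) ^ n ≤ 3 ^ n * (1 + (2 ^ n - 1) * (C / 18 * t)) := by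
    refine (pow_le_pow_left₀ (Real.sqrt_nonneg _) hs n).trans ?_
    rw [mul_pow]
    apply mul_le_mul_of_nonneg_left _ (by positivity)
    apply pow_lin n (by positivity)
    linarith
  have h2 := mul_le_mul_of_nonneg_right h1 hβ0
  refine h2.trans (le_of_eq ?_)
  rw [hC']
  ring

end Pool.Agent.Q195.PS
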